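import Mathlib
import Pool.Agent.Lib.Common.Forcing.Cohen
import Pool.Agent.Lib.MP_446da5_lc.Normal

/-!
The chain condition of size continuum, and completeness of the measure.
-/

set_option autoImplicit false

namespace Pool.Agent.Lib.MP_446da5_lc.Big

open Set Filter Pool.Agent.Lib.Common.Forcing

/-- Binary sequences. -/
abbrev RR : Type := ℕ → Bool

instance : Uncountable RR :=
  Cardinal.aleph0_lt_mk_iff.1 (by simpa using Cardinal.aleph0_lt_continuum)

/-- Every set of conditions has a predense subset of size at most continuum. -/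
def CC (P : Type) [Preorder P] : Prop :=
  ∀ W : Set P, W.Nonempty → ∃ e : RR → P, (∀ j, e j ∈ W) ∧ ∀ p ∈ W, ∃ j, Compat p (e j)

theorem CC.values {P : Type} [Preorder P] {T : Type*} [Nonempty T] (h : CC P) (V : P → T → Prop)
    (hm : ∀ p q t, V p t → q ≤ p → V q t) (hu : ∀ p t t', V p t → V p t' → t = t') :
    ∃ e : RR → T, ∀ p t, V p t → ∃ j, e j = t := by
  rcases Set.eq_empty_or_nonempty {p | ∃ t, V p t} with h0 | h0
  · exact ⟨fun _ => Classical.arbitrary T, fun p t hp =>
      absurd (show p ∈ {p | ∃ t, V p t} from ⟨t, hp⟩) (h0 ▸ notMem_empty p)⟩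
  obtain ⟨e, he, hpre⟩ := h _ h0
  choose f hf using he
  refine ⟨f, fun p t hp => ?_⟩
  obtain ⟨j, r, h1, h2⟩ := hpre p ⟨t, hp⟩
  exact ⟨j, hu r _ _ (hm _ _ _ (hf j) h2) (hm _ _ _ hp h1)⟩

theorem meas_cont {X : Type} [LinearOrder X] {U : Ultrafilter X} (h : Meas U) (S : RR → Set X)
    (hS : ∀ j, S j ∈ U) : ⋂ j, S j ∈ U := by
  classical
  by_contra hn
  have h1 : ∀ x : X, ∃ j, x ∉ ⋂ j, S j → x ∉ S j := fun x => by
    by_cases hx : x ∈ ⋂ j, S j
    · exact ⟨default, fun h => (h hx).elim⟩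
    · obtain ⟨j, hj⟩ := not_forall.1 (mt mem_iInter.2 hx)
      exact ⟨j, fun _ => hj⟩
  choose f hf using h1
  have h2 : ∀ k, ∃ b, {x | f x k = b} ∈ U := fun k => by
    rcases U.mem_or_compl_mem {x | f x k = true} with h3 | h3
    · exact ⟨true, h3⟩
    · exact ⟨false, mem_of_superset h3 fun x hx => by simpa using hx⟩
  choose j hj using h2
  obtain ⟨x, ⟨h3, h4⟩, h5⟩ := Ultrafilter.nonempty_of_mem (inter_mem (inter_mem (h.cnt _ hj)
    (Ultrafilter.compl_mem_iff_notMem.2 hn)) (hS j))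
  have e : f x = j := funext fun k => mem_iInter.1 h3 k
  exact hf x h4 (e ▸ h5)

open Cardinal in
/-- Continuum many points lie below some point. -/
theorem exists_onto {X : Type} [LinearOrder X] [WellFoundedLT X] {U : Ultrafilter X} (h : Meas U)
    {T : Type} [Nonempty T] (hT : #T ≤ 𝔠) : ∃ (δ : X) (e : Iio δ → T), Function.Surjective e := by
  have h1 : 𝔠 < #X := by
    by_contra hn
    have h2 : #X ≤ #RR := by simpa using hn
    obtain ⟨x⟩ := (Ultrafilter.nonempty_of_mem (univ_mem (f := (U : Filter X)))).to_type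
    have : Nonempty X := ⟨x⟩
    obtain ⟨f⟩ := (Cardinal.le_def _ _).1 h2
    obtain ⟨y, hy⟩ := Ultrafilter.nonempty_of_mem
      (meas_cont h (fun j => Ioi (Function.invFun f j)) fun j => h.tail _)
    have h3 := mem_iInter.1 hy (f y)
    rw [Function.leftInverse_invFun f.injective y] at h3
    exact lt_irrefl y h3
  have h2 : (𝔠 : Cardinal.{0}).ord < Ordinal.type (α := X) (· < ·) := by
    by_contra hn
    have := Ordinal.card_le_card (not_lt.1 hn)
    rw [Ordinal.card_type, Cardinal.card_ord] at this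
    exact absurd h1 (not_lt.2 this)
  obtain ⟨δ, hδ⟩ := Ordinal.typein_surj _ h2
  have h3 : #(Iio δ) = 𝔠 := by
    rw [← Cardinal.card_ord 𝔠, ← hδ, Ordinal.card_typein]
    rfl
  obtain ⟨f⟩ := (Cardinal.le_def _ _).1 (hT.trans h3.ge)
  exact ⟨δ, Function.invFun f, Function.invFun_surjective f.injective⟩

end Pool.Agent.Lib.MP_446da5_lc.Big
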