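import Mathlib
import Pool.Agent.Lib.MP_446da5_lc.Big.CC

/-!
Countable conditions, finite strings, fusion, and the chain condition of the product.
-/

set_option autoImplicit false

namespace Pool.Agent.Lib.MP_446da5_lc.Big

open Set Pool.Agent.Lib.Common.Forcing Cardinal

/-- Decreasing sequences have lower bounds. -/
def SigC (Q : Type) [Preorder Q] : Prop :=
  ∀ q : ℕ → Q, (∀ n, q (n + 1) ≤ q n) → ∃ r, ∀ n, r ≤ q n

theorem SigC.inter {Q : Type} [Preorder Q] (h : SigC Q) {ι : Type} [Countable ι] (p : Q)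
    (D : ι → Q → Prop) (hm : ∀ i p q, D i p → q ≤ p → D i q)
    (hd : ∀ i, ∀ q ≤ p, ∃ r ≤ q, D i r) : ∃ q ≤ p, ∀ i, D i q := by
  rcases isEmpty_or_nonempty ι with h0 | h0
  · exact ⟨p, le_rfl, fun i => h0.elim i⟩
  obtain ⟨e, he⟩ := exists_surjective_nat ι
  choose f hf hf' using hd
  let s : ℕ → {q // q ≤ p} := fun n =>
    Nat.rec ⟨p, le_rfl⟩ (fun n q => ⟨f (e n) q.1 q.2, (hf _ _ _).trans q.2⟩) n
  obtain ⟨r, hr⟩ := h (fun n => (s n).1) fun n => hf (e n) (s n).1 (s n).2
  refine ⟨r, hr 0, fun i => ?_⟩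
  obtain ⟨n, rfl⟩ := he i
  exact hm _ _ _ (hf' (e n) (s n).1 (s n).2) (hr (n + 1))

/-- Fusion along the binary tree. -/
theorem SigC.tree {Q S : Type} [Preorder Q] (h : SigC Q) (I : List Bool → S → Q → Prop)
    (R : List Bool → S → Bool → S → Prop) (hm : ∀ l s p q, I l s p → q ≤ p → I l s q)
    (hd : ∀ l s p b, I l s p → ∃ s', ∃ q ≤ p, I (b :: l) s' q ∧ R l s b s') (s₀ : S) (p₀ : Q)
    (h0 : I [] s₀ p₀) : ∃ q ≤ p₀, ∃ F : List Bool → S, F [] = s₀ ∧ (∀ l, I l (F l) q) ∧
      ∀ l b, R l (F l) b (F (b :: l)) := by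
  have step : ∀ (n : ℕ) (x : {x : Q × (List Bool → S) // ∀ l, l.length = n → I l (x.2 l) x.1}),
      ∃ y : {x : Q × (List Bool → S) // ∀ l, l.length = n + 1 → I l (x.2 l) x.1},
        y.1.1 ≤ x.1.1 ∧ ∀ l b, l.length = n → R l (x.1.2 l) b (y.1.2 (b :: l)) := by
    rintro n ⟨⟨p, G⟩, hx⟩
    obtain ⟨q, hq, h1⟩ := h.inter (ι := List Bool × Bool) p
      (fun i q => ∃ s', i.1.length = n → I (i.2 :: i.1) s' q ∧ R i.1 (G i.1) i.2 s')
      (fun i p₁ q ⟨s', h1⟩ h2 => ⟨s', fun h3 => ⟨hm _ _ _ _ (h1 h3).1 h2, (h1 h3).2⟩⟩)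
      (fun i p₁ h1 => by
        by_cases h2 : i.1.length = n
        · obtain ⟨s', r, h3, h4⟩ := hd i.1 (G i.1) p₁ i.2 (hm _ _ _ _ (hx _ h2) h1)
          exact ⟨r, h3, s', fun _ => h4⟩
        · exact ⟨p₁, le_rfl, s₀, fun h3 => (h2 h3).elim⟩)
    choose G' hG' using h1
    refine ⟨⟨(q, fun l => G' (l.tail, l.headD true)), fun l hl => ?_⟩, hq,
      fun l b hl => (hG' (l, b) hl).2⟩
    cases l with
    | nil => simp at hl
    | cons b l => exact (hG' (l, b) (by simpa using hl)).1
  choose f hf hf' using step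
  let x : ∀ n : ℕ, {x : Q × (List Bool → S) // ∀ l, l.length = n → I l (x.2 l) x.1} := fun n =>
    Nat.rec ⟨(p₀, fun _ => s₀), fun l hl => List.length_eq_zero_iff.1 hl ▸ h0⟩ f n
  obtain ⟨r, hr⟩ := h (fun n => (x n).1.1) fun n => hf n (x n)
  exact ⟨r, hr 0, fun l => (x l.length).1.2 l, rfl,
    fun l => hm _ _ _ _ ((x l.length).2 l rfl) (hr _), fun l b => hf' l.length (x l.length) l b rfl⟩

/-- Finite binary strings, extended on the left. -/
structure Str where
  l : List Bool

instance : Preorder Str where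
  le r s := s.l <:+ r.l
  le_refl r := List.suffix_refl r.l
  le_trans _ _ _ h h' := h'.trans h

instance : Countable Str := ⟨Encodable.encode ∘ Str.l, fun ⟨_⟩ ⟨_⟩ h =>
  congrArg Str.mk (Encodable.encode_injective h)⟩

theorem Str.le_def {r s : Str} : r ≤ s ↔ s.l <:+ r.l := Iff.rfl

/-- Functions to `Bool` with countable domain. -/
structure CQ (I : Type) where
  f : I → Option Bool
  cnt : {i | f i ≠ none}.Countable

namespace CQ
variable {I : Type}

instance : Preorder (CQ I) where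
  le q p := ∀ i b, p.f i = some b → q.f i = some b
  le_refl _ _ _ h := h
  le_trans _ _ _ h h' i b hb := h i b (h' i b hb)

instance : Inhabited (CQ I) := ⟨⟨fun _ => none, by simp⟩⟩

theorem sigC (I : Type) : SigC (CQ I) := by
  classical
  intro q hq
  have hm : ∀ m n, m ≤ n → q n ≤ q m := fun m n h => antitone_nat_of_succ_le hq h
  refine ⟨⟨fun i => if h : ∃ n, (q n).f i ≠ none then (q h.choose).f i else none,
    (countable_iUnion fun n => (q n).cnt).mono fun i hi => ?_⟩, fun n i b hb => ?_⟩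
  · by_contra hn
    exact hi (dif_neg fun ⟨n, h⟩ => hn (mem_iUnion.2 ⟨n, h⟩))
  · have h : ∃ n, (q n).f i ≠ none := ⟨n, by simp [hb]⟩
    obtain ⟨c, hc⟩ := Option.ne_none_iff_exists'.1 h.choose_spec
    change (if h : ∃ n, (q n).f i ≠ none then (q h.choose).f i else none) = some b
    rw [dif_pos h, hc, ← hm _ _ (le_max_left h.choose n) i c hc, hm _ _ (le_max_right _ n) i b hb]

theorem exists_set (p : CQ I) {i : I} (h : p.f i = none) (b : Bool) :
    ∃ q ≤ p, q.f i = some b ∧ ∀ j, j ≠ i → q.f j = p.f j := by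
  classical
  refine ⟨⟨Function.update p.f i (some b), (p.cnt.insert i).mono fun j hj => ?_⟩,
    fun j c hc => ?_, Function.update_self i (some b) p.f,
    fun j hj => Function.update_of_ne hj (some b) p.f⟩
  · by_cases e : j = i
    · exact Or.inl e
    · exact Or.inr (by simpa [Function.update_of_ne e] using hj)
  · have e : j ≠ i := by
      rintro rfl
      rw [h] at hc
      cases hc
    exact (Function.update_of_ne e (some b) p.f).trans hc

theorem exists_some (p : CQ I) (i : I) : ∃ q ≤ p, ∃ b, q.f i = some b := by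
  cases h : p.f i with
  | none => exact let ⟨q, h1, h2, _⟩ := p.exists_set h true; ⟨q, h1, true, h2⟩
  | some b => exact ⟨p, le_rfl, b, h⟩

theorem compat {p q : CQ I} (h : ∀ i b c, p.f i = some b → q.f i = some c → b = c) :
    ∃ r, r ≤ p ∧ r ≤ q := by
  refine ⟨⟨fun i => (p.f i).or (q.f i), (p.cnt.union q.cnt).mono fun i hi => ?_⟩,
    fun i b hb => by simp [hb], fun i c hc => ?_⟩
  · by_contra hn
    simp only [mem_union, mem_ofPred_eq, not_or, not_not] at hn
    exact hi (by simp [hn.1, hn.2])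
  · cases hb : p.f i with
    | none => simp [hb, hc]
    | some b => simp [hb, h i b c hb hc]

end CQ

/-- A set of size at most continuum closed under a countable operation. -/
theorem exists_closed {I A : Type} (hA : #A ≤ 𝔠) (F : A → (ℕ → Option I) → ℕ → Option I) :
    ∃ T : Set (Option I), #T ≤ 𝔠 ∧ none ∈ T ∧
      ∀ a y, (∀ k, y k ∈ T) → ∀ n, F a y n ∈ T := by
  let β : Option (A × ℕ) → Type := fun o => {_k : ℕ // o.isSome}
  let ev : WType β → Option I := WType.elim _ fun x =>
    match x with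
    | ⟨none, _⟩ => none
    | ⟨some a, c⟩ => F a.1 (fun k => c ⟨k, rfl⟩) a.2
  refine ⟨range ev, mk_range_le.trans (WType.cardinalMk_le_of_le ?_),
    ⟨WType.mk none fun k => absurd k.2 (by simp), rfl⟩, fun a y hy n => ?_⟩
  · refine (sum_le_sum _ (fun _ => 𝔠) fun o => ?_).trans ?_
    · exact (power_le_power_left continuum_ne_zero mk_le_aleph0).trans continuum_power_aleph0.le
    · rw [sum_const', mk_option, mk_prod, lift_id, lift_id, mk_nat]
      have h1 : #A * ℵ₀ + 1 ≤ 𝔠 := add_le_of_le aleph0_le_continuum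
        (mul_le_of_le aleph0_le_continuum hA aleph0_le_continuum)
        (one_le_aleph0.trans aleph0_le_continuum)
      exact mul_le_of_le aleph0_le_continuum h1 le_rfl
  · choose c hc using hy
    refine ⟨WType.mk (some (a, n)) fun k => c k.1, ?_⟩
    rw [show y = fun k => ev (c k) from funext fun k => (hc k).symm]
    rfl

open Classical in
/-- The condition coded by points and values. -/
noncomputable def code {I : Type} (y : ℕ → Option I) (v : RR) : CQ I :=
  ⟨fun i => if h : ∃ k, y k = some i then some (v h.choose) else none,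
    ((countable_range y).preimage (Option.some_injective I)).mono fun i hi => by
      by_contra hn
      exact hi (dif_neg hn)⟩

theorem cc (I : Type) : CC (Str × CQ I) := by
  classical
  rintro W ⟨w₀, hw₀⟩
  have h1 : ∀ (r : Str) (s : CQ I), ∃ w ∈ W, (∃ p ∈ W, p.1 = r ∧ p.2 ≤ s) → w.1 = r ∧ w.2 ≤ s :=
    fun r s => by
      by_cases h : ∃ p ∈ W, p.1 = r ∧ p.2 ≤ s
      · obtain ⟨p, h1, h2⟩ := h
        exact ⟨p, h1, fun _ => h2⟩
      · exact ⟨w₀, hw₀, fun h' => (h h').elim⟩
  choose w hw hw' using h1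
  have h2 : ∀ {S : Set I}, S.Countable → ∃ y : ℕ → Option I, (∀ i ∈ S, ∃ k, y k = some i) ∧
      ∀ k, y k = none ∨ ∃ i ∈ S, y k = some i := fun {S} hS => by
    obtain ⟨y, hy⟩ := ((hS.image some).insert none).exists_eq_range (insert_nonempty _ _)
    refine ⟨y, fun i hi => (hy ▸ mem_insert_of_mem _ (mem_image_of_mem _ hi) : some i ∈ range y),
      fun k => ?_⟩
    rcases (hy.symm ▸ mem_range_self k : y k ∈ insert none (some '' S)) with h | ⟨i, hi, h⟩
    · exact Or.inl h
    · exact Or.inr ⟨i, hi, h.symm⟩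
  choose en hen _ using fun q : CQ I => h2 q.cnt
  have hA : #(Str × RR) ≤ 𝔠 := by
    rw [mk_prod, lift_id, lift_id]
    exact mul_le_of_le aleph0_le_continuum (mk_le_aleph0.trans aleph0_le_continuum) (by simp)
  obtain ⟨T, hT, hT0, hT1⟩ := exists_closed hA fun a y => en (w a.1 (code y a.2)).2
  have hB : #((Str × RR) × (ℕ → T)) ≤ #RR := by
    rw [mk_prod, lift_id, lift_id]
    refine (mul_le_of_le aleph0_le_continuum hA ?_).trans (by simp)
    rw [← power_def, mk_nat]
    exact (power_le_power_right hT).trans continuum_power_aleph0.le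
  obtain ⟨f⟩ := (le_def _ _).1 hB
  have : Nonempty ((Str × RR) × (ℕ → T)) := ⟨((⟨[]⟩, default), fun _ => ⟨none, hT0⟩)⟩
  refine ⟨fun j => w (Function.invFun f j).1.1 (code (fun k => ((Function.invFun f j).2 k).1)
    (Function.invFun f j).1.2), fun j => hw _ _, fun p hp => ?_⟩
  obtain ⟨y, hy, hy'⟩ := h2 (p.2.cnt.mono (inter_subset_left (t := {i | some i ∈ T})))
  have hyT : ∀ k, y k ∈ T := fun k => by
    rcases hy' k with h | ⟨i, hi, h⟩
    · exact h ▸ hT0
    · exact h ▸ hi.2
  let v : RR := fun k => ((y k).bind p.2.f).getD true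
  have hc : ∀ i, (∃ k, y k = some i) → (code y v).f i = p.2.f i := fun i h => by
    have h3 := h.choose_spec
    rcases hy' h.choose with h4 | ⟨i', hi', h4⟩
    · rw [h3] at h4
      cases h4
    · obtain rfl : i = i' := Option.some_injective _ (h3.symm.trans h4)
      obtain ⟨b, hb⟩ := Option.ne_none_iff_exists'.1 hi'.1
      simp only [code, dif_pos h, v, h3, Option.bind_some, hb, Option.getD_some]
  obtain ⟨h3, h4⟩ := hw' p.1 (code y v) ⟨p, hp, rfl, fun i b hb => by
    rw [← hc i (by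
      by_contra hn
      simp only [code, dif_neg hn] at hb
      cases hb), hb]⟩
  refine ⟨f ((p.1, v), fun k => ⟨y k, hyT k⟩), ?_⟩
  simp only [Function.leftInverse_invFun f.injective _]
  obtain ⟨r, h5, h6⟩ := CQ.compat (p := p.2) (q := (w p.1 (code y v)).2) fun i b c hb hc' => by
    obtain ⟨k, hk⟩ := hen _ i (show (w p.1 (code y v)).2.f i ≠ none by simp [hc'])
    have h7 : some i ∈ T := hk ▸ hT1 (p.1, v) y hyT k
    have h8 := h4 i b ((hc i (hy i ⟨by simp [hb], h7⟩)).trans hb)
    exact Option.some_injective _ (h8.symm.trans hc')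
  exact ⟨(p.1, r), ⟨le_rfl, h5⟩, ⟨h3.ge, h6⟩⟩

end Pool.Agent.Lib.MP_446da5_lc.Big
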