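import Mathlib
import Pool.Agent.Lib.MP_446da5_lc.Game
import Pool.Agent.Lib.MP_446da5_lc.Big.Poset

/-!
A tree of split positions steered by the Cohen real.
-/

set_option autoImplicit false

namespace Pool.Agent.Lib.MP_446da5_lc.Big

open Set Pool.Agent.Lib.Common.Forcing

variable {P : Type} [Preorder P] {X : Type} [LinearOrder X] [WellFoundedLT X] {I : Type}

/-- The position `(a', n')` extends the position `(a, n)`. -/
def Xt (a : ℕ → X → P → Prop) (n : ℕ) (a' : ℕ → X → P → Prop) (n' : ℕ) : Prop :=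
  n ≤ n' ∧ (∀ k, Mon (a' k)) ∧ ∀ k < n, a' k = a k

omit [LinearOrder X] [WellFoundedLT X] in
theorem Xt.refl {a : ℕ → X → P → Prop} (ha : ∀ k, Mon (a k)) (n : ℕ) : Xt a n a n :=
  ⟨le_rfl, ha, fun _ _ => rfl⟩

omit [LinearOrder X] [WellFoundedLT X] in
theorem Xt.trans {a a' a'' : ℕ → X → P → Prop} {n n' n'' : ℕ} (h : Xt a n a' n')
    (h' : Xt a' n' a'' n'') : Xt a n a'' n'' :=
  ⟨h.1.trans h'.1, h'.2.1, fun k hk => (h'.2.2 k (hk.trans_le h.1)).trans (h.2.2 k hk)⟩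

theorem DD_anti {σ : Name P} {a : ℕ → X → P → Prop} {m n : ℕ} (h : m ≤ n) {α : X} {p : P}
    (hd : DD σ a n α p) : DD σ a m α p := by
  induction h with
  | refl => exact hd
  | step _ ih => exact ih (DD_succ.1 hd).1

theorem Xt.DD {σ : Name P} {a a' : ℕ → X → P → Prop} {n n' : ℕ} (ha : ∀ k, Mon (a k))
    (h : Xt a n a' n') {α : X} {p : P} (hd : DD σ a' n' α p) : DD σ a n α p :=
  (DD_congr σ h.2.1 ha n (fun i hi _ _ _ => by rw [h.2.2 i hi]) α p le_rfl).1 (DD_anti h.1 hd)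

/-- The position decides the bit `i` to be `b`. -/
def Dec (σ : Name P) (B : I → X → Bool → P → Prop) (a : ℕ → X → P → Prop) (n : ℕ) (i : I)
    (b : Bool) (p : P) : Prop := ∀ α, ∀ r ≤ p, DD σ a n α r → ¬ B i α (!b) r

theorem Dec.mono {σ : Name P} {B : I → X → Bool → P → Prop} {a : ℕ → X → P → Prop} {n n' : ℕ}
    {i : I} {b : Bool} {p q : P} (h : Dec σ B a n i b p) (hq : q ≤ p) (hn : n ≤ n') :
    Dec σ B a n' i b q := fun α r hr hd => h α r (hr.trans hq) (DD_anti hn hd)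

/-- The data at a node of the tree. -/
structure St (X P I : Type) where
  a : ℕ → X → P → Prop
  n : ℕ
  t : List Bool
  i : I
  m : ℕ
  c : Bool → ℕ → X → P → Prop

theorem suf_iff {l l' r : List Bool} : l ++ r <:+ l' ++ r ↔ l <:+ l' :=
  List.suffix_append_self_iff

theorem steer {Q : Type} [Preorder Q] (hQ : SigC Q) (σ : Name (Str × Q))
    (B : I → X → Bool → Str × Q → Prop) (hB : ∀ i α b p q, B i α b p → q ≤ p → B i α b q)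
    {a₀ : ℕ → X → Str × Q → Prop} (ha : ∀ k, Mon (a₀ k)) (n₀ : ℕ) (p₀ : Str × Q)
    (hap : ∀ α, ∀ p ≤ p₀, DD σ a₀ n₀ α p → ∃ p' ≤ p, ∀ i, ∃ q ≤ p'.2, ∃ b, B i α b (p'.1, q))
    (hsp : ∀ a n, Xt a₀ n₀ a n → ∀ p ≤ p₀, ∃ p' ≤ p, ∃ (i : I) (m : ℕ)
      (c : Bool → ℕ → X → Str × Q → Prop), ∀ b, Xt a n (c b) m ∧ Dec σ B (c b) m i b p') :
    ∃ p ≤ p₀, ∃ a : ℕ → X → Str × Q → Prop, (∀ k, Mon (a k)) ∧ ∀ α, Neg (Fin' σ a α) p := by
  let J : List Bool → St X (Str × Q) I → Q → Prop := fun l s q => q ≤ p₀.2 ∧ Xt a₀ n₀ s.a s.n ∧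
    l <:+ s.t ∧ ∀ b, Xt s.a s.n (s.c b) s.m ∧ Dec σ B (s.c b) s.m s.i b (⟨s.t ++ p₀.1.l⟩, q)
  have fresh : ∀ l a n, ∀ q ≤ p₀.2, Xt a₀ n₀ a n →
      ∃ s, ∃ q' ≤ q, J l s q' ∧ s.a = a ∧ s.n = n := fun l a n q hq hx => by
    obtain ⟨⟨⟨r⟩, q'⟩, ⟨⟨x, rfl⟩, h2⟩, i, m, c, h3⟩ :=
      hsp a n hx (⟨l ++ p₀.1.l⟩, q) ⟨List.suffix_append _ _, hq⟩
    exact ⟨⟨a, n, x ++ l, i, m, c⟩, q', h2, ⟨h2.trans hq, hx, List.suffix_append _ _,
      fun b => by simpa only [List.append_assoc] using h3 b⟩, rfl, rfl⟩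
  obtain ⟨s₀, q₀, -, h0, e1, e2⟩ := fresh [] a₀ n₀ p₀.2 le_rfl (Xt.refl ha _)
  obtain ⟨q, -, F, hF0, hJ, hR⟩ := hQ.tree J (fun l s b s' => (b :: l <:+ s.t → s' = s) ∧
      (l = s.t → s'.a = s.c b ∧ s'.n = s.m) ∧ Xt s.a s.n s'.a s'.n)
    (fun l s p q h hq => ⟨hq.trans h.1, h.2.1, h.2.2.1, fun b =>
      ⟨(h.2.2.2 b).1, (h.2.2.2 b).2.mono ⟨le_rfl, hq⟩ le_rfl⟩⟩)
    (fun l s p b h => by
      by_cases h1 : b :: l <:+ s.t
      · refine ⟨s, p, le_rfl, ⟨h.1, h.2.1, h1, h.2.2.2⟩, fun _ => rfl, fun e => ?_,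
          Xt.refl h.2.1.2.1 _⟩
        have := h1.length_le
        rw [← e, List.length_cons] at this
        omega
      by_cases h2 : l = s.t
      · obtain ⟨s', q, h3, h4, h5, h6⟩ :=
          fresh (b :: l) (s.c b) s.m p h.1 (h.2.1.trans (h.2.2.2 b).1)
        exact ⟨s', q, h3, h4, fun e => (h1 e).elim, fun _ => ⟨h5, h6⟩, h5 ▸ h6 ▸ (h.2.2.2 b).1⟩
      · obtain ⟨s', q, h3, h4, h5, h6⟩ := fresh (b :: l) s.a s.n p h.1 h.2.1
        exact ⟨s', q, h3, h4, fun e => (h1 e).elim, fun e => (h2 e).elim,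
          by rw [h5, h6]; exact Xt.refl h.2.1.2.1 _⟩) s₀ q₀ h0
  have mon : ∀ l k, Mon ((F l).a k) := fun l => (hJ l).2.1.2.1
  have coh : ∀ x l, Xt (F l).a (F l).n (F (x ++ l)).a (F (x ++ l)).n := fun x l => by
    induction x with
    | nil => exact Xt.refl (mon l) _
    | cons b x ih => exact ih.trans (hR (x ++ l) b).2.2
  have tgt : ∀ x l, x ++ l <:+ (F l).t → F (x ++ l) = F l := fun x l h => by
    induction x with
    | nil => rfl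
    | cons b x ih =>
      have e := ih ((List.suffix_cons b _).trans h)
      exact ((hR (x ++ l) b).1 (e ▸ h)).trans e
  let a : ℕ → X → Str × Q → Prop := fun k α p =>
    ∃ l, l ++ p₀.1.l <:+ p.1.l ∧ k < (F l).n ∧ (F l).a k α p
  have hm : ∀ k, Mon (a k) := fun k α s r ⟨l, h1, h2, h3⟩ hr =>
    ⟨l, h1.trans hr.1, h2, mon l k α s r h3 hr⟩
  have agree : ∀ l α (p : Str × Q), l ++ p₀.1.l <:+ p.1.l → DD σ a (F l).n α p →
      DD σ (F l).a (F l).n α p := fun l α p hp =>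
    (DD_congr σ hm (mon l) (q := p) _ (fun k hk β r hr => by
      refine ⟨fun ⟨l', h1, h2, h3⟩ => ?_, fun h => ⟨l, hp.trans hr.1, hk, h⟩⟩
      rcases List.suffix_or_suffix_of_suffix (hp.trans hr.1) h1 with h4 | h4
      · obtain ⟨x, rfl⟩ := suf_iff.1 h4
        rwa [(coh x l).2.2 k hk] at h3
      · obtain ⟨x, rfl⟩ := suf_iff.1 h4
        rwa [(coh x l').2.2 k h2]) α p le_rfl).1
  refine ⟨(p₀.1, q), ⟨le_rfl, (hJ []).1⟩, a, hm, fun ξ p hp hf => ?_⟩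
  obtain ⟨p₁, h1, d1⟩ := hf (F []).n p le_rfl
  have d2 := agree [] ξ p₁ (h1.trans hp).1 d1
  rw [hF0, e1, e2] at d2
  obtain ⟨⟨⟨r⟩, q'⟩, h2, h3⟩ := hap ξ p₁ (h1.trans (hp.trans ⟨le_rfl, (hJ []).1⟩)) d2
  obtain ⟨l, rfl⟩ : p₀.1.l <:+ r := (h2.trans (h1.trans hp)).1
  obtain ⟨x, hx⟩ := (hJ l).2.2.1
  have e := tgt x l (hx ▸ List.suffix_refl _)
  rw [hx] at e
  obtain ⟨q'', h4, b, h5⟩ := h3 (F l).i
  obtain ⟨e3, e4⟩ := (hR (F l).t (!b)).2.1 (by rw [e])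
  have h6 : ((⟨((!b) :: (F l).t) ++ p₀.1.l⟩, q'') : Str × Q) ≤ (⟨l ++ p₀.1.l⟩, q'') :=
    ⟨suf_iff.2 ((hJ l).2.2.1.trans (List.suffix_cons _ _)), le_rfl⟩
  obtain ⟨p₄, h7, d3⟩ := hf (F ((!b) :: (F l).t)).n _
    (h6.trans (le_trans (b := (⟨l ++ p₀.1.l⟩, q')) ⟨le_rfl, h4⟩ (h2.trans h1)))
  have d4 := agree _ ξ p₄ h7.1 d3
  rw [e3, e4, e] at d4
  refine ((hJ l).2.2.2 (!b)).2 ξ p₄ (h7.trans ⟨suf_iff.2 (List.suffix_cons _ _),
    h4.trans (h2.trans (h1.trans hp)).2⟩) d4 ?_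
  rw [Bool.not_not]
  exact hB _ _ _ _ _ h5 (h7.trans h6)

end Pool.Agent.Lib.MP_446da5_lc.Big
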