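import Mathlib
import Pool.Agent.Lib.MP_446da5_lc.Big.Steer

/-!
No name is a winning strategy of Choose: the density argument.
-/

set_option autoImplicit false

namespace Pool.Agent.Lib.MP_446da5_lc.Big

open Set Pool.Agent.Lib.Common.Forcing

variable {X : Type} [LinearOrder X] [WellFoundedLT X] {I : Type}

section general

variable {P : Type} [Preorder P] {σ : Name P} {B : I → X → Bool → P → Prop}

theorem cut_left {a : ℕ → X → P → Prop} {m : ℕ} {p r : P} {β : X} (h : ch σ a m p)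
    (hd : DD σ a (m + 1) β r) (hr : r ≤ p) : a m β r :=
  (DD_succ.1 hd).2.elim (·.2) fun h' => (h'.1 r le_rfl (Fmem.mono h hr)).elim

theorem cut_right {a : ℕ → X → P → Prop} {m : ℕ} {p r : P} {β : X} (h : Neg (ch σ a m) p)
    (hd : DD σ a (m + 1) β r) (hr : r ≤ p) : Neg (a m β) r :=
  (DD_succ.1 hd).2.elim (fun h' => (h r hr h'.1).elim) (·.2)

omit [LinearOrder X] [WellFoundedLT X] in
theorem xt_upd {a : ℕ → X → P → Prop} (ha : ∀ k, Mon (a k)) (n : ℕ) {W : X → P → Prop}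
    (hW : Mon W) : Xt a n (Function.update a n W) (n + 1) := by
  refine ⟨n.le_succ, fun k => ?_, fun k hk => Function.update_of_ne hk.ne _ _⟩
  by_cases h : k = n
  · rw [h, Function.update_self]
    exact hW
  · rw [Function.update_of_ne h]
    exact ha k

/-- Some extension of the position decides the bit. -/
def Val (σ : Name P) (B : I → X → Bool → P → Prop) (a : ℕ → X → P → Prop) (n : ℕ) (i : I)
    (b : Bool) (p : P) : Prop := ∃ a' m, Xt a n a' m ∧ Dec σ B a' m i b p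

theorem Val.mono {a : ℕ → X → P → Prop} {n : ℕ} {i : I} {b : Bool} {p q : P}
    (h : Val σ B a n i b p) (hq : q ≤ p) : Val σ B a n i b q :=
  let ⟨a', m, h1, h2⟩ := h
  ⟨a', m, h1, h2.mono hq le_rfl⟩

theorem dec_of_cut (hex : ∀ i α p, B i α true p → B i α false p → False)
    {a : ℕ → X → P → Prop} {m : ℕ} {i : I} (h : a m = fun α => B i α true) {p : P} :
    (ch σ a m p → Dec σ B a (m + 1) i true p) ∧
      (Neg (ch σ a m) p → Dec σ B a (m + 1) i false p) := by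
  refine ⟨fun h1 β r hr hd => ?_, fun h1 β r hr hd => ?_⟩
  · have := cut_left h1 hd hr
    rw [h] at this
    exact hex i β r this
  · have := cut_right h1 hd hr
    rw [h] at this
    exact this r le_rfl

theorem val_dense (hB : ∀ i α b p q, B i α b p → q ≤ p → B i α b q)
    (hex : ∀ i α p, B i α true p → B i α false p → False) {a : ℕ → X → P → Prop}
    (ha : ∀ k, Mon (a k)) (n : ℕ) (i : I) (p : P) : ∃ r ≤ p, ∃ b, Val σ B a n i b r := by
  have hx := xt_upd ha n (W := fun α => B i α true) fun α s r => hB i α true s r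
  obtain ⟨r, hr, h | h⟩ := exists_decide (ch σ (Function.update a n fun α => B i α true) n) p
  · exact ⟨r, hr, true, _, _, hx, (dec_of_cut hex (Function.update_self ..)).1 h⟩
  · exact ⟨r, hr, false, _, _, hx, (dec_of_cut hex (Function.update_self ..)).2 h⟩

/-- From round `n` on Cut proposes the bits. -/
def bits (B : ℕ → X → Bool → P → Prop) (a : ℕ → X → P → Prop) (n k : ℕ) : X → P → Prop :=
  if k < n then a k else fun α => B (k - n) α true

omit [LinearOrder X] [WellFoundedLT X] in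
theorem xt_bits {B : ℕ → X → Bool → P → Prop} (hB : ∀ i α b p q, B i α b p → q ≤ p → B i α b q)
    {a : ℕ → X → P → Prop} (ha : ∀ k, Mon (a k)) {n m : ℕ} (h : n ≤ m) :
    Xt a n (bits B a n) m := by
  refine ⟨h, fun k => ?_, fun k hk => if_pos hk⟩
  unfold bits
  split_ifs
  · exact ha k
  · exact fun α s r => hB _ α true s r

theorem val_of_fin {B : ℕ → X → Bool → P → Prop}
    (hB : ∀ i α b p q, B i α b p → q ≤ p → B i α b q)
    (hex : ∀ i α p, B i α true p → B i α false p → False) {a₃ a : ℕ → X → P → Prop} {n₃ n : ℕ}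
    (hx : Xt a₃ n₃ a n) {ξ : X} {p : P} (hf : Fin' σ (bits B a n) ξ p) {k : ℕ} {b : Bool}
    (hb : B k ξ b p) : Dn (Val σ B a₃ n₃ k b) p := fun r hr => by
  obtain ⟨s, hs, hd⟩ := hf (n + k + 1) r hr
  have e : bits B a n (n + k) = fun α => B k α true := by
    rw [bits, if_neg (by omega), Nat.add_sub_cancel_left]
  have hx' := hx.trans (xt_bits hB hx.2.1 (show n ≤ n + k + 1 by omega))
  have hb' := hB _ _ _ _ _ hb (hs.trans hr)
  refine ⟨s, hs, _, _, hx', ?_⟩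
  rcases (DD_succ.1 hd).2 with h | h
  · rw [e] at h
    cases b
    · exact (hex _ _ _ h.2 hb').elim
    · exact (dec_of_cut hex e).1 h.1
  · rw [e] at h
    cases b
    · exact (dec_of_cut hex e).2 h.1
    · exact (h.2 s le_rfl hb').elim

end general

theorem nosplit {Q : Type} [Preorder Q] (hQ : SigC Q) (σ : Name (Str × Q))
    (B : I → X → Bool → Str × Q → Prop) (hB : ∀ i α b p q, B i α b p → q ≤ p → B i α b q)
    {a₀ : ℕ → X → Str × Q → Prop} (ha : ∀ k, Mon (a₀ k)) (n₀ : ℕ) (p₀ : Str × Q)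
    (hap : ∀ α, ∀ p ≤ p₀, DD σ a₀ n₀ α p → ∃ p' ≤ p, ∀ i, ∃ q ≤ p'.2, ∃ b, B i α b (p'.1, q))
    (hg : ∀ a : ℕ → X → Str × Q → Prop, (∀ k, Mon (a k)) → ∀ p ≤ p₀, ∃ α, ∃ r ≤ p, Fin' σ a α r) :
    ∃ a n, Xt a₀ n₀ a n ∧ ∃ p ≤ p₀, ∀ r ≤ p, ∀ i b b',
      Val σ B a n i b r → Val σ B a n i b' r → b = b' := by
  by_contra hn
  obtain ⟨p, hp, a, h1, h2⟩ := steer hQ σ B hB ha n₀ p₀ hap fun a n hx p hp => by
    by_contra h
    refine hn ⟨a, n, hx, p, hp, fun r hr i b b' ⟨c, m, h1, h2⟩ ⟨c', m', h3, h4⟩ => ?_⟩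
    by_contra hb
    refine h ⟨r, hr, i, max m m', fun d => if d = b then c else c', fun d => ?_⟩
    by_cases hd : d = b
    · simp only [if_pos hd]
      exact ⟨⟨h1.1.trans (le_max_left _ _), h1.2⟩, hd ▸ h2.mono le_rfl (le_max_left _ _)⟩
    · have e : b' = d := by
        revert hb hd
        cases b <;> cases b' <;> cases d <;> simp
      simp only [if_neg hd]
      exact ⟨⟨h3.1.trans (le_max_right _ _), h3.2⟩, e ▸ h4.mono le_rfl (le_max_right _ _)⟩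
  obtain ⟨α, r, hr, h⟩ := hg a h1 p hp
  exact h2 α r hr h

/-- The forcing. -/
abbrev PP (X : Type) := Str × CQ (X × RR)

/-- The bits of the generic functions. -/
def gB (i : RR) (α : X) (b : Bool) (p : PP X) : Prop := p.2.f (α, i) = some b

omit [LinearOrder X] [WellFoundedLT X] in
theorem exists_sep {α β : X} (h : β ≠ α) (p : PP X) :
    ∃ r ≤ p, ∃ i, gB i α true r ∧ gB i β false r := by
  obtain ⟨i, hi⟩ : ∃ i : RR, i ∉ Prod.snd '' {j | p.2.f j ≠ none} := by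
    by_contra hn
    exact not_countable_univ ((p.2.cnt.image Prod.snd).mono fun i _ => not_not.1 fun h => hn ⟨i, h⟩)
  have h0 : ∀ γ, p.2.f (γ, i) = none := fun γ => not_not.1 fun h => hi ⟨(γ, i), h, rfl⟩
  obtain ⟨q, h1, h2, h3⟩ := p.2.exists_set (h0 α) true
  obtain ⟨q', h4, h5, -⟩ := q.exists_set (i := (β, i))
    ((h3 _ fun e => h (congrArg Prod.fst e)).trans (h0 β)) false
  exact ⟨(p.1, q'), ⟨le_rfl, h4.trans h1⟩, i, h4 _ _ h2, h5⟩

theorem bad_dense (σ : Name (PP X)) (p₀ : PP X) : ∃ p ≤ p₀, ∃ a : ℕ → X → PP X → Prop,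
    (∀ k, Mon (a k)) ∧ ((∃ n α, DD σ a (n + 1) α p ∧ ∀ β ≠ α, Neg (DD σ a (n + 1) β) p) ∨
      ∀ α, Neg (Fin' σ a α) p) := by
  by_contra hn
  have g1 : ∀ a : ℕ → X → PP X → Prop, (∀ k, Mon (a k)) → ∀ p ≤ p₀, ∃ α, ∃ r ≤ p, Fin' σ a α r :=
    fun a ha p hp => by
      by_contra h
      exact hn ⟨p, hp, a, ha, Or.inr fun α r hr h' => h ⟨α, r, hr, h'⟩⟩
  have mB : ∀ i (α : X) b p q, gB i α b p → q ≤ p → gB i α b q := fun _ _ _ _ _ h hq => hq.2 _ _ h
  have xB : ∀ i (α : X) p, gB i α true p → gB i α false p → False := fun i α p h h' => by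
    cases h.symm.trans h'
  obtain ⟨a₁, n₁, x₁, p₁, hp₁, ns⟩ := nosplit (CQ.sigC _) σ gB mB (a₀ := fun _ _ _ => True)
    (fun _ _ _ _ _ _ => trivial) 0 p₀
    (fun α p _ _ => ⟨p, le_rfl, fun i => p.2.exists_some (α, i)⟩) g1
  have m₁ := x₁.2.1
  let Df : X → RR → PP X → Prop := fun α i p => ∃ b, gB i α b p ∧ Val σ gB a₁ n₁ i (!b) p
  have mD : ∀ α i p q, Df α i p → q ≤ p → Df α i q := fun α i p q ⟨b, h1, h2⟩ hq =>
    ⟨b, mB _ _ _ _ _ h1 hq, h2.mono hq⟩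
  let Sa : X → PP X → Prop := fun α p => ∀ i, Neg (Df α i) p
  have x₂ := xt_upd m₁ n₁ (W := Sa) fun α s r h hr i => (h i).mono hr
  set a₂ := Function.update a₁ n₁ Sa with ha₂
  have e₂ : a₂ n₁ = Sa := Function.update_self ..
  obtain ⟨p₂, hp₂, hc | hc⟩ := exists_decide (ch σ a₂ n₁) p₁
  · obtain ⟨α, r, hr, hf⟩ := g1 a₂ x₂.2.1 p₂ (hp₂.trans hp₁)
    obtain ⟨s, hs, hd⟩ := hf (n₁ + 1) r le_rfl
    refine hn ⟨s, hs.trans (hr.trans (hp₂.trans hp₁)), a₂, x₂.2.1,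
      Or.inl ⟨n₁, α, hd, fun β hβ t ht hd' => ?_⟩⟩
    have s1 := cut_left hc hd (hs.trans hr)
    have s2 := cut_left hc hd' (ht.trans (hs.trans hr))
    rw [e₂] at s1 s2
    obtain ⟨u, hu, i, b1, b2⟩ := exists_sep hβ t
    obtain ⟨w, hw, b, hv⟩ := val_dense (σ := σ) mB xB m₁ n₁ i u
    cases b
    · exact s1 i w (hw.trans (hu.trans ht)) ⟨true, mB _ _ _ _ _ b1 hw, hv⟩
    · exact s2 i w (hw.trans hu) ⟨false, mB _ _ _ _ _ b2 hw, hv⟩
  let F : X → RR → PP X → Prop := fun α i p =>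
    Df α i p ∧ ∀ j, WellOrderingRel j i → Neg (Df α j) p
  have mF : ∀ α i p q, F α i p → q ≤ p → F α i q := fun α i p q h hq =>
    ⟨mD _ _ _ _ h.1 hq, fun j hj => (h.2 j hj).mono hq⟩
  have uF : ∀ α i j p, F α i p → F α j p → i = j := fun α i j p h h' => by
    rcases trichotomous_of WellOrderingRel i j with e | e | e
    · exact (h'.2 i e p le_rfl h.1).elim
    · exact e
    · exact (h.2 j e p le_rfl h'.1).elim
  have tF : ∀ α, ∀ p ≤ p₂, DD σ a₂ (n₁ + 1) α p → ∃ r ≤ p, ∃ i, F α i r := fun α p hp hd => by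
    have h1 := cut_right hc hd hp
    rw [e₂] at h1
    have h2 : {i | ∃ r ≤ p, Df α i r}.Nonempty := by
      by_contra h
      exact h1 p le_rfl fun i r hr h' => h ⟨i, r, hr, h'⟩
    obtain ⟨i, ⟨r, hr, h3⟩, h4⟩ := (IsWellFounded.wf (r := WellOrderingRel)).has_min _ h2
    exact ⟨r, hr, i, h3, fun j hj s hs h' => h4 j ⟨s, hs.trans hr, h'⟩ hj⟩
  let B : ℕ → X → Bool → PP X → Prop := fun k α b p => ∃ i, F α i p ∧ i k = b
  have mB' : ∀ k α b p q, B k α b p → q ≤ p → B k α b q := fun k α b p q ⟨i, h1, h2⟩ hq =>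
    ⟨i, mF _ _ _ _ h1 hq, h2⟩
  have xB' : ∀ k α p, B k α true p → B k α false p → False :=
    fun k α p ⟨i, h1, h2⟩ ⟨j, h3, h4⟩ => by
      rw [uF α i j p h1 h3, h4] at h2
      cases h2
  have le₂ := hp₂.trans hp₁
  obtain ⟨a₃, n₃, x₃, p₃, hp₃, ns'⟩ := nosplit (CQ.sigC _) σ B mB' x₂.2.1 (n₁ + 1) p₂
    (fun α p hp hd => let ⟨r, hr, i, h⟩ := tF α p hp hd
      ⟨r, hr, fun k => ⟨r.2, le_rfl, i k, i, h, rfl⟩⟩) fun a ha p hp => g1 a ha p (hp.trans le₂)
  have fin : ∀ a n, Xt a₃ n₃ a n → ∀ p ≤ p₃, ∃ ξ, ∃ r ≤ p, ∃ i, F ξ i r ∧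
      DD σ (bits B a n) n ξ r ∧ ∀ k, Dn (Val σ B a₃ n₃ k (i k)) r := fun a n hx p hp => by
    have hx' := xt_bits mB' hx.2.1 (le_refl n)
    obtain ⟨ξ, r, hr, hf⟩ := g1 _ hx'.2.1 p (hp.trans (hp₃.trans le₂))
    obtain ⟨s, hs, hd⟩ := hf n r le_rfl
    obtain ⟨t, ht, i, hi⟩ := tF ξ s (hs.trans (hr.trans (hp.trans hp₃)))
      ((x₃.trans (hx.trans hx')).DD x₂.2.1 hd)
    exact ⟨ξ, t, ht.trans (hs.trans hr), i, hi, mon_DD σ hx'.2.1 n ξ s t hd ht, fun k =>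
      val_of_fin mB' xB' hx (mon_Fin _ _ ξ r t hf (ht.trans hs)) ⟨i, hi, rfl⟩⟩
  obtain ⟨ξ, p, hp, i, -, -, v1⟩ := fin a₃ n₃ (Xt.refl x₃.2.1 _) p₃ le_rfl
  have x₄ := xt_upd x₃.2.1 n₃ (W := fun α => F α i) fun α s r => mF α i s r
  set a₄ := Function.update a₃ n₃ fun α => F α i with ha₄
  have e₄ : a₄ n₃ = fun α => F α i := Function.update_self ..
  obtain ⟨ζ, r, hr, j, hj, hd, v2⟩ := fin a₄ (n₃ + 1) x₄ p hp
  obtain rfl : i = j := funext fun k => by
    obtain ⟨s, hs, h1⟩ := v1 k r hr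
    obtain ⟨t, ht, h2⟩ := v2 k s hs
    exact ns' t (ht.trans (hs.trans (hr.trans hp))) k _ _ (h1.mono ht) h2
  have hd' := (xt_bits mB' x₄.2.1 (le_refl (n₃ + 1))).DD x₄.2.1 hd
  have le₁ : r ≤ p₁ := hr.trans (hp.trans (hp₃.trans hp₂))
  rcases (DD_succ.1 hd').2 with h | h
  · obtain ⟨b, -, hv⟩ := hj.1
    have hv' : Val σ gB a₁ n₁ i b r := ⟨a₄, n₃ + 1, x₂.trans (x₃.trans x₄), fun α s hs hα hb => by
      have h1 := cut_left h.1 hα hs
      rw [e₄] at h1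
      obtain ⟨c, h2, h3⟩ := h1.1
      have h4 := ns s (hs.trans le₁) i _ _ h3 (hv.mono hs)
      have h5 : some c = some (!b) := h2.symm.trans hb
      revert h4 h5
      cases b <;> cases c <;> simp⟩
    have := ns r le₁ i _ _ hv hv'
    revert this
    cases b <;> simp
  · rw [e₄] at h
    exact h.2 r le_rfl hj

end Pool.Agent.Lib.MP_446da5_lc.Big
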