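import Mathlib
import Pool.Agent.Lib.MP_446da5_lc.Big.Defs
import Pool.Agent.Lib.MP_446da5_lc.Big.Lose

/-!
The model: few reals, and no winning strategy of Choose.
-/

set_option autoImplicit false

namespace Pool.Agent.Lib.MP_446da5_lc.Big

open Set Filter Pool.Agent.Lib.Common.Forcing

/-- Names of reals that depend on the string only. -/
noncomputable def nv {Q : Type} (v : ℕ → Str → Prop) : Name (Str × Q) :=
  ⟨ℕ, fun n => oc (n : Ordinal.{0}), fun n p => v n p.1⟩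

theorem reals_dense {Q : Type} [Preorder Q] (hQ : SigC Q) {τ : Name (Str × Q)} {p : Str × Q}
    (h : Fsub τ (oc Ordinal.omega0) p) : ∃ q ≤ p, ∃ v, Feq τ (nv v) q := by
  obtain ⟨q, hq, h1⟩ := hQ.inter (ι := ℕ × Str) p.2 (fun i q =>
      Fmem (oc (i.1 : Ordinal.{0})) τ (i.2, q) ∨
        ∀ r ≤ q, ¬ Fmem (oc (i.1 : Ordinal.{0})) τ (i.2, r))
    (fun i q r h hr => h.imp (fun h => h.mono ⟨le_rfl, hr⟩) fun h s hs => h s (hs.trans hr))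
    fun i q _ => exists_decide (fun r => Fmem (oc (i.1 : Ordinal.{0})) τ (i.2, r)) q
  have hle : (p.1, q) ≤ p := ⟨le_rfl, hq⟩
  refine ⟨(p.1, q), hle, fun n s => Fmem (oc (n : Ordinal.{0})) τ (s, q), Feq.ext
    (fun ρ r hr hm => Fmem.reg fun s hs => ?_) (fsub_of_act fun n r hr ⟨s, hs, h2⟩ => ?_)⟩
  · obtain ⟨t, ht, a, ha, h2⟩ := (h ρ r (hr.trans hle) hm).oc_elim hs
    obtain ⟨n, rfl⟩ := Ordinal.lt_omega0.1 ha
    have h3 : Fmem (oc (n : Ordinal.{0})) τ (t.1, t.2) := (hm.mono (ht.trans hs)).congr_left h2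
    exact ⟨t, ht, Fmem.intro n ((h1 (n, t.1)).resolve_right fun h4 =>
      h4 t.2 (ht.trans (hs.trans hr)).2 h3) h2⟩
  · exact Fmem.mono h2 ⟨hs.1, hr.2⟩

variable {X : Type} [LinearOrder X] [WellFoundedLT X]

theorem exists_model {U : Ultrafilter X} (hU : Meas U) :
    ∃ g : Gen (PP X), Rich U g ∧ SmallCont g.M (g.π (kap X)) ∧
      ¬ ChooseWinsIn g.M (g.π (kap X)) := by
  have : Inhabited (PP X) := ⟨(⟨[]⟩, default)⟩
  obtain ⟨𝒲, hc, h𝒲⟩ := exists_tasks_rich (P := PP X) (cc _) hU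
  obtain ⟨δ, e, he⟩ := exists_onto hU (T := ℕ → Str → Prop) (by
    rw [← Cardinal.power_def, ← Cardinal.power_def, ← Cardinal.power_mul, Cardinal.mk_Prop,
      ← Cardinal.two_power_aleph0]
    exact Cardinal.power_le_power_left two_ne_zero (Cardinal.mul_le_of_le le_rfl
      Cardinal.mk_le_aleph0 Cardinal.mk_le_aleph0))
  let A : Iio δ → Name (PP X) := fun ξ => op (och ξ.1) (nv (e ξ))
  let t₀ : Job (PP X) := fun _ S _ => {och δ, fam A} ⊆ S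
  let t₁ : Job (PP X) := fun l S r => ∃ ξ, A ξ ∈ S ∧ Feq (l.getD 0 emp) (nv (e ξ)) r
  let t₂ : Job (PP X) := fun l S r => ∃ a : ℕ → X → PP X → Prop, (∀ k, Mon (a k)) ∧
    pack (l.getD 0 emp) a ⊆ S ∧ ((∃ n α, och α ∈ S ∧ DD (l.getD 0 emp) a (n + 1) α r ∧
      ∀ β ≠ α, Neg (DD (l.getD 0 emp) a (n + 1) β) r) ∨ ∀ α, Neg (Fin' (l.getD 0 emp) a α) r)
  obtain ⟨g, -, hg⟩ := exists_gen (𝒲 ∪ {t₀, t₁, t₂}) (hc.union (toFinite _).countable) default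
  have hR := h𝒲 g fun W hW => hg W (Or.inl hW)
  have m0 := PreGen.Meets.closed (F := fun _ => {och δ, fam A}) (fun _ => (toFinite _).countable)
    (hg t₀ (Or.inr (by simp))) [] (by simp)
  have mδ : och δ ∈ g.N := m0 (by simp)
  have mA : fam A ∈ g.N := m0 (by simp)
  refine ⟨g, hR, ⟨_, hR.mem_K.2 ⟨δ, mδ, rfl⟩, _, Gen.π_mem_M mA, fun z x y hx hy => ?_,
    fun x hx hω => ?_⟩, ?_⟩
  · obtain ⟨ξ, a, b, -⟩ := Gen.exists_child mA hx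
    obtain ⟨ζ, a', b', -⟩ := Gen.exists_child mA hy
    have c := Gen.of_op_mem (σ := och ξ.1) (τ := nv (e ξ)) a
    have c' := Gen.of_op_mem (σ := och ζ.1) (τ := nv (e ζ)) a'
    obtain ⟨d1, d2⟩ := ZFSet.pair_inj.1 ((Gen.π_op c.1 c.2).symm.trans b)
    obtain ⟨d3, d4⟩ := ZFSet.pair_inj.1 ((Gen.π_op c'.1 c'.2).symm.trans b')
    obtain rfl : ξ = ζ := Subtype.ext (π_och_inj c.1 c'.1 (d1.trans d3.symm))
    exact d2.symm.trans d4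
  · obtain ⟨τ, hτ, rfl⟩ := Gen.mem_M.1 hx
    obtain ⟨n, ⟨S, hS, ξ, a, b⟩ | h⟩ := hg t₁ (Or.inr (by simp)) [τ] (Gen.l1 hτ)
    · have c := Gen.of_op_mem (σ := och ξ.1) (τ := nv (e ξ)) (hS a)
      refine ⟨_, (π_och_mem_iff c.1 mδ).2 ξ.2, ?_⟩
      rw [Gen.π_eq_of_ev hτ c.2 ⟨n, fun q hq => b.mono hq⟩]
      exact (Gen.pair_mem_iff c.1 c.2 mA).2 (Eventually.of_forall fun q => fmem_fam_self A ξ q)
    · rw [← Gen.π_omega (g := g), Gen.π_sub_iff hτ g.omega_mem] at hω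
      obtain ⟨q, h1, h2⟩ := (hω.and (show ∀ᶠ q in g.fil, q ≤ g.h n from ⟨n, fun _ h => h⟩)).exists
      obtain ⟨r, hr, v, hv⟩ := reals_dense (CQ.sigC _) h1
      obtain ⟨ξ, rfl⟩ := he v
      exact (h r (hr.trans h2) {A ξ} (countable_singleton _) ⟨ξ, rfl, hv⟩).elim
  rintro ⟨σ', hσ', hw⟩
  obtain ⟨σ, hσ, rfl⟩ := Gen.mem_M.1 hσ'
  have hpk : ∀ a : ℕ → X → PP X → Prop, (pack σ a).Countable :=
    fun a => ((countable_singleton _).insert _).insert _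
  obtain ⟨n, ⟨S, hS, a, ha, hp, ⟨k, α, b, c, d⟩ | h⟩ | h⟩ :=
    hg t₂ (Or.inr (by simp)) [σ] (Gen.l1 hσ)
  · exact (hR.run hσ ha (hp.trans hS) hw).1 k α (hS b)
      ⟨n, fun q hq => ⟨mon_DD σ ha _ α _ q c hq, fun β hβ => (d β hβ).mono hq⟩⟩
  · exact (hR.run hσ ha (hp.trans hS) hw).2 ⟨n, fun q hq α => (h α).mono hq⟩
  · obtain ⟨r, hr, a, ha, ⟨k, α, b⟩ | h'⟩ := bad_dense σ (g.h n)
    · exact h r hr (insert (och α) (pack σ a)) ((hpk a).insert _)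
        ⟨a, ha, subset_insert _ _, Or.inl ⟨k, α, mem_insert _ _, b⟩⟩
    · exact h r hr (pack σ a) (hpk a) ⟨a, ha, subset_rfl, Or.inr h'⟩

theorem exists_generic {M Q R : ZFSet.{0}} (hM : IsCTM M) (h : IsForcing M Q R) :
    ∃ G, Generic M Q R G := by
  obtain ⟨hQ, -, ⟨p0, hp0⟩, hrefl, htrans⟩ := h
  obtain ⟨D, hD⟩ := hM.countable.exists_eq_range ⟨Q, hQ⟩
  have hstep : ∀ (n : ℕ) (p : {p // p ∈ Q}), ∃ q : {p // p ∈ Q}, ZFSet.pair q.1 p.1 ∈ R ∧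
      (D n ⊆ Q → (∀ p ∈ Q, ∃ q ∈ D n, ZFSet.pair q p ∈ R) → q.1 ∈ D n) := by
    intro n p
    by_cases hc : D n ⊆ Q ∧ ∀ p ∈ Q, ∃ q ∈ D n, ZFSet.pair q p ∈ R
    · obtain ⟨q, a, b⟩ := hc.2 p.1 p.2
      exact ⟨⟨q, hc.1 a⟩, b, fun _ _ => a⟩
    · exact ⟨p, hrefl _ p.2, fun a b => absurd ⟨a, b⟩ hc⟩
  choose f hf hf' using hstep
  let s : ℕ → {p // p ∈ Q} := fun n => Nat.rec ⟨p0, hp0⟩ f n
  have hs : ∀ m n, m ≤ n → ZFSet.pair (s n).1 (s m).1 ∈ R := by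
    intro m n hmn
    induction hmn with
    | refl => exact hrefl _ (s m).2
    | @step k _ ih => exact htrans _ (s m).2 _ (s k).2 _ (s (k + 1)).2 (hf k (s k)) ih
  refine ⟨{q | q ∈ Q ∧ ∃ n, ZFSet.pair (s n).1 q ∈ R}, fun p hp => hp.1, ?_, ?_, ?_⟩
  · rintro p ⟨hp, n, hn⟩ q hq hpq
    exact ⟨hq, n, htrans _ hq _ hp _ (s n).2 hn hpq⟩
  · rintro p ⟨hp, n, hn⟩ q ⟨hq, m, hm⟩
    exact ⟨(s (max n m)).1, ⟨(s (max n m)).2, max n m, hrefl _ (s (max n m)).2⟩,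
      htrans _ hp _ (s n).2 _ (s (max n m)).2 (hs _ _ (le_max_left _ _)) hn,
      htrans _ hq _ (s m).2 _ (s (max n m)).2 (hs _ _ (le_max_right _ _)) hm⟩
  · intro E hE h1 h2
    obtain ⟨n, rfl⟩ : E ∈ range D := hD ▸ hE
    exact ⟨(s (n + 1)).1, ⟨(s (n + 1)).2, n + 1, hrefl _ (s (n + 1)).2⟩, hf' n (s n) h1 h2⟩

end Pool.Agent.Lib.MP_446da5_lc.Big
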